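import Pool.Agent.Q19.HO.Stm

/-!
# Job NUCM of project HO: the real matrices in the skew-Hermitian octonion matrices
-/

set_option autoImplicit false

namespace Pool.Agent.Q103.HO.NUCM

open Matrix Pool.Agent.Q19.HO

variable {K : Type} [Field K]

/-- commutator of octonions -/
def cm (x y : Oct K) : Oct K := x * y - y * x

/-- Jacobian of octonions -/
def J (x o o' : Oct K) : Oct K := cm (cm x o) o' + cm (cm o o') x + cm (cm o' x) o

/-- basis elements -/
def u2 : Oct K := (![0, 0, 1, 0, 0, 0, 0, 0] : Fin 8 → K)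
def u3 : Oct K := (![0, 0, 0, 1, 0, 0, 0, 0] : Fin 8 → K)
def u4 : Oct K := (![0, 0, 0, 0, 1, 0, 0, 0] : Fin 8 → K)

lemma u20 : (u2 : Oct K) 0 = 0 := rfl
lemma u21 : (u2 : Oct K) 1 = 0 := rfl
lemma u22 : (u2 : Oct K) 2 = 1 := rfl
lemma u23 : (u2 : Oct K) 3 = 0 := rfl
lemma u24 : (u2 : Oct K) 4 = 0 := rfl
lemma u25 : (u2 : Oct K) 5 = 0 := rfl
lemma u26 : (u2 : Oct K) 6 = 0 := rfl
lemma u27 : (u2 : Oct K) 7 = 0 := rfl
lemma u30 : (u3 : Oct K) 0 = 0 := rfl
lemma u31 : (u3 : Oct K) 1 = 0 := rfl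
lemma u32 : (u3 : Oct K) 2 = 0 := rfl
lemma u33 : (u3 : Oct K) 3 = 1 := rfl
lemma u34 : (u3 : Oct K) 4 = 0 := rfl
lemma u35 : (u3 : Oct K) 5 = 0 := rfl
lemma u36 : (u3 : Oct K) 6 = 0 := rfl
lemma u37 : (u3 : Oct K) 7 = 0 := rfl
lemma u40 : (u4 : Oct K) 0 = 0 := rfl
lemma u41 : (u4 : Oct K) 1 = 0 := rfl
lemma u42 : (u4 : Oct K) 2 = 0 := rfl
lemma u43 : (u4 : Oct K) 3 = 0 := rfl
lemma u44 : (u4 : Oct K) 4 = 1 := rfl
lemma u45 : (u4 : Oct K) 5 = 0 := rfl
lemma u46 : (u4 : Oct K) 6 = 0 := rfl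
lemma u47 : (u4 : Oct K) 7 = 0 := rfl

lemma J23 (x : Oct K) : (J x u2 u3) 0 = -6 * x 4 ∧ (J x u2 u3) 2 = 6 * x 6 ∧
    (J x u2 u3) 3 = -6 * x 5 ∧ (J x u2 u3) 7 = 6 * x 0 - 6 * x 1 := by
  refine ⟨?_, ?_, ?_, ?_⟩ <;>
  · simp only [J, cm, add_ap, sub_ap, mul0, mul1, mul2, mul3, mul4, mul5, mul6, mul7, u20, u21, u22,
      u23, u24, u25, u26, u27, u30, u31, u32, u33, u34, u35, u36, u37]
    ring

lemma J24 (x : Oct K) : (J x u2 u4) 0 = 6 * x 3 ∧ (J x u2 u4) 2 = 6 * x 7 := by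
  refine ⟨?_, ?_⟩ <;>
  · simp only [J, cm, add_ap, sub_ap, mul0, mul1, mul2, mul3, mul4, mul5, mul6, mul7, u20, u21, u22,
      u23, u24, u25, u26, u27, u40, u41, u42, u43, u44, u45, u46, u47]
    ring

lemma J34 (x : Oct K) : (J x u3 u4) 0 = -6 * x 2 := by
  simp only [J, cm, add_ap, sub_ap, mul0, mul1, mul2, mul3, mul4, mul5, mul6, mul7, u30, u31, u32,
      u33, u34, u35, u36, u37, u40, u41, u42, u43, u44, u45, u46, u47]
  ring

lemma scalar_of_J (h2 : (2 : K) ≠ 0) (h3 : (3 : K) ≠ 0) (x : Oct K)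
    (h : ∀ o o' : Oct K, Im o → Im o' → J x o o' = 0) : x = x 0 • (1 : Oct K) := by
  have h6 : (6 : K) ≠ 0 := by
    have : (6 : K) = 2 * 3 := by norm_num
    rw [this]
    exact mul_ne_zero h2 h3
  have i2 : Im (u2 : Oct K) := by simp [Im, u20, u21]
  have i3 : Im (u3 : Oct K) := by simp [Im, u30, u31]
  have i4 : Im (u4 : Oct K) := by simp [Im, u40, u41]
  obtain ⟨a4, a6, a5, a0⟩ := J23 x
  obtain ⟨a3, a7⟩ := J24 x
  have a2 := J34 x
  rw [h _ _ i2 i3, zero_ap] at a4 a6 a5 a0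
  rw [h _ _ i2 i4, zero_ap] at a3 a7
  rw [h _ _ i3 i4, zero_ap] at a2
  have x2 : x 2 = 0 := by
    rcases mul_eq_zero.1 a2.symm with h' | h'
    · exact absurd (neg_eq_zero.1 h') h6
    · exact h'
  have x3 : x 3 = 0 := (mul_eq_zero.1 a3.symm).resolve_left h6
  have x4 : x 4 = 0 := by
    rcases mul_eq_zero.1 a4.symm with h' | h'
    · exact absurd (neg_eq_zero.1 h') h6
    · exact h'
  have x5 : x 5 = 0 := by
    rcases mul_eq_zero.1 a5.symm with h' | h'
    · exact absurd (neg_eq_zero.1 h') h6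
    · exact h'
  have x6 : x 6 = 0 := (mul_eq_zero.1 a6.symm).resolve_left h6
  have x7 : x 7 = 0 := (mul_eq_zero.1 a7.symm).resolve_left h6
  have x1 : x 1 = x 0 := by
    have h' : (6 : K) * (x 0 - x 1) = 0 := by rw [mul_sub]; exact a0.symm
    exact (sub_eq_zero.1 ((mul_eq_zero.1 h').resolve_left h6)).symm
  refine oct_ext fun i => ?_
  fin_cases i
  · simp [smul_ap, one0]
  · simp [smul_ap, one1, x1]
  · simp [smul_ap, one2, x2]
  · simp [smul_ap, one3, x3]
  · simp [smul_ap, one4, x4]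
  · simp [smul_ap, one5, x5]
  · simp [smul_ap, one6, x6]
  · simp [smul_ap, one7, x7]

section matrices

variable {n : ℕ}

lemma mul_ten (A : Mat n K) (o : Oct K) (i j : Fin n) : (A * ten 1 o : Mat n K) i j = A i j * o := by
  rw [Matrix.mul_apply, Finset.sum_eq_single j]
  · simp [ten]
  · intro k _ hk
    simp [ten, Matrix.one_apply_ne hk]
  · intro h
    exact absurd (Finset.mem_univ j) h

lemma ten_mul (A : Mat n K) (o : Oct K) (i j : Fin n) : (ten 1 o * A : Mat n K) i j = o * A i j := by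
  rw [Matrix.mul_apply, Finset.sum_eq_single i]
  · simp [ten]
  · intro k _ hk
    simp [ten, Matrix.one_apply_ne (Ne.symm hk)]
  · intro h
    exact absurd (Finset.mem_univ i) h

lemma star_im {o : Oct K} (h : Im o) : star o = -o := by
  unfold Im at h
  refine oct_ext fun i => ?_
  fin_cases i
  · show (star o) 0 = (-o) 0
    rw [star0, neg_ap]
    linear_combination h
  · show (star o) 1 = (-o) 1
    rw [star1, neg_ap]
    linear_combination h
  all_goals rfl

lemma ten_mem {o : Oct K} (h : Im o) : (ten 1 o : Mat n K) ∈ SymM n K := by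
  intro i j
  show star ((1 : Matrix (Fin n) (Fin n) K) j i • o) = -((1 : Matrix (Fin n) (Fin n) K) i j • o)
  rw [star_smul', star_im h, smul_neg]
  congr 2
  by_cases hij : i = j
  · rw [hij]
  · rw [Matrix.one_apply_ne hij, Matrix.one_apply_ne (Ne.symm hij)]

lemma jac_entry (A : Mat n K) (o o' : Oct K) (i j : Fin n) :
    (jac A (ten 1 o) (ten 1 o') : Mat n K) i j = J (A i j) o o' := by
  have hc : ∀ (B : Mat n K) (o : Oct K) (i j : Fin n), (br B (ten 1 o) : Mat n K) i j = cm (B i j) o := by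
    intro B o i j
    rw [br, Matrix.sub_apply, mul_ten, ten_mul]
    rfl
  have hc' : ∀ (B : Mat n K) (o : Oct K) (i j : Fin n), (br (ten 1 o) B : Mat n K) i j = cm o (B i j) := by
    intro B o i j
    rw [br, Matrix.sub_apply, mul_ten, ten_mul]
    rfl
  have ht : (br (ten 1 o) (ten 1 o') : Mat n K) = ten 1 (cm o o') := by
    ext i j
    rw [hc]
    by_cases hij : i = j
    · subst hij
      simp [ten]
    · simp [ten, Matrix.one_apply_ne hij, cm]
  rw [jac, Matrix.add_apply, Matrix.add_apply, hc, hc, ht, hc', hc, hc']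
  rfl

lemma re_mul (a : Matrix (Fin n) (Fin n) K) (X : Mat n K) (i j : Fin n) :
    (re a * X) i j = ∑ k, a i k • X k j := by
  rw [Matrix.mul_apply]
  exact Finset.sum_congr rfl fun k _ => by
    show (a i k • (1 : Oct K)) * X k j = _
    rw [Pool.Agent.Q19.HO.smul_mul', one_mul]

lemma mul_re (a : Matrix (Fin n) (Fin n) K) (X : Mat n K) (i j : Fin n) :
    (X * re a) i j = ∑ k, a k j • X i k := by
  rw [Matrix.mul_apply]
  exact Finset.sum_congr rfl fun k _ => by
    show X i k * (a k j • (1 : Oct K)) = _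
    rw [mul_smul', mul_one]

lemma assoc_l (a : Matrix (Fin n) (Fin n) K) (X Y : Mat n K) : re a * X * Y = re a * (X * Y) := by
  ext i j
  rw [re_mul, Matrix.mul_apply]
  simp only [re_mul]
  simp only [Matrix.mul_apply, Finset.sum_mul, Finset.smul_sum, Pool.Agent.Q19.HO.smul_mul']
  exact Finset.sum_comm

lemma assoc_m (a : Matrix (Fin n) (Fin n) K) (X Y : Mat n K) : X * re a * Y = X * (re a * Y) := by
  ext i j
  rw [Matrix.mul_apply, Matrix.mul_apply]
  simp only [re_mul, mul_re]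
  simp only [Finset.sum_mul, Finset.mul_sum, Pool.Agent.Q19.HO.smul_mul', mul_smul']
  exact Finset.sum_comm

lemma assoc_r (a : Matrix (Fin n) (Fin n) K) (X Y : Mat n K) : X * Y * re a = X * (Y * re a) := by
  ext i j
  rw [mul_re, Matrix.mul_apply]
  simp only [mul_re]
  simp only [Matrix.mul_apply, Finset.mul_sum, Finset.smul_sum, mul_smul']
  exact Finset.sum_comm

end matrices

theorem t : S_NUCM := by
  intro K _ n h2 h3 A hA
  constructor
  · intro h
    have hs : ∀ i j, A i j = (A i j) 0 • (1 : Oct K) := by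
      intro i j
      refine scalar_of_J h2 h3 _ fun o o' ho ho' => ?_
      rw [← jac_entry, h _ (ten_mem ho) _ (ten_mem ho')]
      rfl
    refine ⟨fun i j => (A i j) 0, ?_, ?_⟩
    · ext i j
      show (A j i) 0 = -(A i j) 0
      have h1 : (star (A j i)) 0 = (-A i j) 0 := by rw [hA i j]
      rw [star0, neg_ap] at h1
      rw [← h1, hs j i]
      simp [smul_ap, one0, one1]
    · ext i j
      exact hs i j
  · rintro ⟨a, _, rfl⟩ X _ Y _
    simp only [jac, br, Matrix.sub_mul, Matrix.mul_sub, assoc_l, assoc_m, assoc_r]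
    abel

end Pool.Agent.Q103.HO.NUCM
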